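import Pool.Agent.Helper56.PX.Final

/-!
# MP_371589_nt: power saving for the number of exceptions

For every `δ > 23/24` the number of `n < N`, not of the form `4 ^ k (8 l + 7)`, which are not of the
form `x² + y² + z²` with `x + 2 y + 3 z` a square or twice a square, is `O(N ^ δ)`.
-/

set_option autoImplicit false

namespace Pool.Agent.Results.MP_371589_nt.PowerSaving

/-- The number of exceptions below `N` is at most `C N ^ δ`, for every `δ > 23/24`. -/
theorem result (δ : ℝ) (hδ : 23 / 24 < δ) :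
    ∃ C : ℝ, ∀ N : ℕ, 1 ≤ N →
      (({n : ℕ | n < N ∧ (¬ ∃ k l : ℕ, n = 4 ^ k * (8 * l + 7)) ∧
        ¬ ∃ x y z : ℤ, (n : ℤ) = x ^ 2 + y ^ 2 + z ^ 2 ∧
          ∃ m : ℤ, (x + 2 * y + 3 * z = m ^ 2 ∨ x + 2 * y + 3 * z = 2 * m ^ 2)}.ncard : ℕ) : ℝ) ≤
        C * (N : ℝ) ^ δ := by
  classical
  obtain ⟨C, hC⟩ := Helper56.PX.power_saving hδ
  refine ⟨C, fun N hN => (le_of_eq ?_).trans (hC N hN)⟩
  congr 1
  unfold Helper11.Sq.cnt
  rw [← Set.ncard_coe_finset]
  congr 1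
  ext n
  simp only [Finset.coe_filter, Finset.mem_range, Set.mem_ofPred_eq, Helper11.Sq.Exc,
    Helper11.Sq.E, Helper11.Sq.Good]

end Pool.Agent.Results.MP_371589_nt.PowerSaving
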